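import Pool.Agent.H8.VR.Targets

/-!
# Two-variable logic over context-free classes: prescribed numbers in the fibres
-/

set_option autoImplicit false

namespace Pool.Agent.H49.VR

open Pool.Agent.H8.VR Classical

/-- a finite set has a function with prescribed fibre sizes -/
theorem ex_fib {A Θ : Type} [Fintype Θ] [Nonempty Θ] (F : Finset A) (m : Θ → ℕ)
    (h : ∑ θ, m θ = F.card) : ∃ g : A → Θ, ∀ θ, (F.filter fun a => g a = θ).card = m θ := by
  have hc : Fintype.card F = Fintype.card (Σ θ, Fin (m θ)) := by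
    simp [h]
  let e : F ≃ Σ θ, Fin (m θ) := Fintype.equivOfCardEq hc
  refine ⟨fun a => if h : a ∈ F then (e ⟨a, h⟩).1 else Classical.arbitrary Θ, fun θ => ?_⟩
  have h1 : (F.filter fun a => (if h : a ∈ F then (e ⟨a, h⟩).1 else Classical.arbitrary Θ) = θ) =
      (Finset.univ : Finset (Fin (m θ))).image fun k => (e.symm ⟨θ, k⟩ : A) := by
    ext a
    simp only [Finset.mem_filter, Finset.mem_image, Finset.mem_univ, true_and]
    constructor
    · rintro ⟨ha, h2⟩
      rw [dif_pos ha] at h2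
      subst h2
      refine ⟨(e ⟨a, ha⟩).2, ?_⟩
      rw [Sigma.eta, Equiv.symm_apply_apply]
    · rintro ⟨k, rfl⟩
      refine ⟨(e.symm ⟨θ, k⟩).2, ?_⟩
      rw [dif_pos (e.symm ⟨θ, k⟩).2, Subtype.coe_eta, Equiv.apply_symm_apply]
  rw [h1, Finset.card_image_of_injective, Finset.card_univ, Fintype.card_fin]
  intro k l hkl
  have h3 := e.symm.injective (Subtype.ext hkl)
  simpa using h3

theorem pf_FB : T_FB := by
  intro A ι Θ _ _ _ X f m hm
  have h1 : ∀ σ, ∃ g : A → Θ, ∀ θ,
      ((Finset.univ.filter fun a => a ∈ X ∧ f a = σ).filter fun a => g a = θ).card = m (σ, θ) :=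
    fun σ => ex_fib _ _ ((hm σ).trans (by unfold num; congr))
  choose g hg using h1
  refine ⟨fun a => g (f a) a, ?_⟩
  rintro ⟨σ, θ⟩
  rw [← hg σ θ, num]
  refine congrArg Finset.card ?_
  ext a
  simp only [Finset.mem_filter, Finset.mem_univ, true_and, Prod.mk.injEq]
  constructor
  · rintro ⟨h2, h3, h4⟩
    subst h3
    exact ⟨⟨h2, rfl⟩, h4⟩
  · rintro ⟨⟨h2, h3⟩, h4⟩
    subst h3
    exact ⟨h2, rfl, h4⟩

end Pool.Agent.H49.VR
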